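import Pool.Agent.J4H78.HG.Stm4
import Pool.Agent.J4H78.GP.Dens
import Pool.Agent.J4H2.GP.Low2

/-!
# Project HG4, piece (LOWY): all but very few primes `p` have many split primes `≤ y` for all `y ≥ (log p) ^ A`
-/

set_option autoImplicit false
set_option linter.unusedVariables false

open Filter Topology
open Pool.Agent.J4H78.GP (Spl Dense dense_univ)
open Pool.Agent.H38R2.CG (PP IsFund)

namespace Pool.Agent.J4H74.HG

/-- the parameters -/
lemma par {A d η κ Z : ℝ} (hA : 1 ≤ A) (hd : 0 < d) (hκη : κ < η) :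
    ∀ᶠ L : ℝ in atTop, (4 ≤ L ^ A ∧ 2 ≤ L ^ (A / 2) ∧ 3 ≤ L ∧ 2 ≤ Real.log L ∧ 4 * Real.log 8 ≤ L ∧
      6 * L / (A * Real.log L) ≤ L ∧ 1 ≤ L / (A * Real.log L) ∧ 5 * L ≤ Real.exp (L / A)) ∧
      4 ≤ (d * L) ^ A ∧ L ^ (A / 2) ≤ (d * L) ^ A / 2 ∧ Z ≤ (d * L) ^ A / 4 := by
  have hA0 : 0 < A := by linarith
  have h1 : Tendsto (fun L : ℝ => (d * L) ^ A) atTop atTop :=
    (tendsto_rpow_atTop hA0).comp (tendsto_id.const_mul_atTop hd)
  filter_upwards [Pool.Agent.J4H21.GP.params hA, Pool.Agent.J4H2.GP.params2 (η := η) hA hd hκη,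
    h1.eventually_ge_atTop (4 * Z)] with L e f g
  obtain ⟨e1, e2, e3, e4, e5, e6, e7, -, -, e10⟩ := e
  obtain ⟨f1, f2, f3⟩ := f
  exact ⟨⟨e1, e2, e3, e4, e5, e6, e7, e10⟩, f1, f3, by linarith⟩

open Classical in
/-- the bound for one `J` -/
lemma one {L A d κ C₁ : ℝ} {J x : ℕ} {y₁ : ℕ} (hA1 : 1 ≤ A) (hd : 0 < d) (hκ0 : 0 < κ) (hκ1 : κ < 1)
    (hC₁ : 0 < C₁) (hL : L = Real.log (x : ℝ)) (hx2 : 2 ≤ x)
    (e : 4 ≤ L ^ A ∧ 2 ≤ L ^ (A / 2) ∧ 3 ≤ L ∧ 2 ≤ Real.log L ∧ 4 * Real.log 8 ≤ L ∧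
      6 * L / (A * Real.log L) ≤ L ∧ 1 ≤ L / (A * Real.log L) ∧ 5 * L ≤ Real.exp (L / A))
    (f : L ^ (A / 2) ≤ (d * L) ^ A / 2) (hJ : (d * L) ^ A / 4 ≤ J) (hJx : J ≤ x) (hJ2 : 2 ≤ J)
    (hlow : ∀ Q : Finset ℕ, Q ⊆ PP J → Q.Nonempty →
      ∀ i : ℕ, 1 ≤ i → ∀ X : ℕ, (2 * X : ℝ) ≤ ((2 * J : ℝ)) ^ ((i : ℝ) / 2) →
        (((Finset.Ioc X (2 * X)).filter (fun D => IsFund D ∧
          ∑ p ∈ Q, (1 + ((jacobiSym (D : ℤ) p : ℤ) : ℝ)) < (Q.card : ℝ) / 20)).card : ℝ) ≤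
          C₁ * (i.factorial : ℝ) * (3 * J / Q.card) ^ i)
    (hQc : (J : ℝ) ^ (1 - κ) ≤ ((PP J).card : ℝ)) (hQ35 : 35 ≤ (PP J).card) (E : Finset ℕ)
    (hE : ∀ p ∈ E, p ≤ x ∧ p.Prime ∧
      ((100 : ℝ) * ({q ∈ ((PP J : Finset ℕ) : Set ℕ) | Spl p q}.ncard : ℝ) < (PP J).card)) :
    (E.card : ℝ) ≤ C₁ * (Real.exp (L / A) * (Real.exp (6 * L / A) *
      Real.exp (6 * L / A + 4 * κ * L))) := by
  classical
  obtain ⟨e1, e2, e3, e4, e5, e6, e7, e10⟩ := e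
  have hA0 : 0 < A := by linarith
  have hL0 : 0 < L := by linarith
  have hlL : 0 < Real.log L := by linarith
  have hJ0 : (0 : ℝ) < J := by
    have : (2 : ℝ) ≤ J := by exact_mod_cast hJ2
    linarith
  have hx1 : (2 : ℝ) ≤ x := by exact_mod_cast hx2
  obtain ⟨Q, hQ⟩ : ∃ Q : Finset ℕ, Q = PP J := ⟨_, rfl⟩
  rw [← hQ] at hQc hQ35 hE
  have hQ35' : (35 : ℝ) ≤ (Q.card : ℝ) := by exact_mod_cast hQ35
  have hQpos : (0 : ℝ) < (Q.card : ℝ) := by linarith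
  have hlogJ0 : 0 ≤ Real.log J := Real.log_nonneg (by
    have : (2 : ℝ) ≤ J := by exact_mod_cast hJ2
    linarith)
  have hlogJ : Real.log J ≤ L := by
    rw [hL]
    exact Real.log_le_log hJ0 (by exact_mod_cast hJx)
  have hlog2J : A / 2 * Real.log L ≤ Real.log (2 * J) := by
    rw [← Real.log_rpow hL0]
    apply Real.log_le_log (Real.rpow_pos_of_pos hL0 _)
    linarith
  have hlog2J0 : 0 < Real.log (2 * J) := lt_of_lt_of_le (by positivity) hlog2J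
  have hlogJ2 : Real.log J ≤ Real.log (2 * J) := Real.log_le_log hJ0 (by linarith)
  obtain ⟨i, hi⟩ : ∃ i : ℕ, i = ⌈2 * Real.log (8 * x) / Real.log (2 * J)⌉₊ := ⟨_, rfl⟩
  have hlog8x : Real.log (8 * x) = Real.log 8 + L := by
    rw [Real.log_mul (by norm_num) (by linarith), hL]
  have hlog8 : 0 < Real.log 8 := Real.log_pos (by norm_num)
  have hi1 : 1 ≤ i := by
    rw [hi, Nat.one_le_ceil_iff, hlog8x]
    positivity
  have hi2 : (i : ℝ) < 2 * Real.log (8 * x) / Real.log (2 * J) + 1 := by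
    have h1 := Nat.ceil_lt_add_one (a := 2 * Real.log (8 * x) / Real.log (2 * J)) (by
      rw [hlog8x]; positivity)
    rwa [← hi] at h1
  have hile : (i : ℝ) ≤ 6 * L / (A * Real.log L) := by
    have h2 : 2 * Real.log (8 * x) / Real.log (2 * J) ≤ 5 * L / (A * Real.log L) := by
      rw [hlog8x]
      calc 2 * (Real.log 8 + L) / Real.log (2 * J) ≤ (5 / 2 * L) / (A / 2 * Real.log L) :=
            div_le_div₀ (by positivity) (by linarith) (by positivity) hlog2J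
        _ = 5 * L / (A * Real.log L) := by field_simp
    have h3 : 6 * L / (A * Real.log L) = 5 * L / (A * Real.log L) + L / (A * Real.log L) := by
      ring
    linarith
  have hiL : (i : ℝ) ≤ L := hile.trans e6
  have hiA : (i : ℝ) * Real.log L ≤ 6 * L / A := by
    have := mul_le_mul_of_nonneg_right hile hlL.le
    refine this.trans (le_of_eq ?_)
    field_simp
  have hiJ : (i : ℝ) * Real.log J ≤ 4 * L := by
    have h1 : (i : ℝ) * Real.log J ≤ (2 * Real.log (8 * x) / Real.log (2 * J) + 1) * Real.log J :=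
      mul_le_mul_of_nonneg_right hi2.le hlogJ0
    have h2 : 2 * Real.log (8 * x) / Real.log (2 * J) * Real.log J ≤ 2 * Real.log (8 * x) := by
      rw [div_mul_eq_mul_div, div_le_iff₀ hlog2J0]
      have h3 : 0 ≤ 2 * Real.log (8 * x) := by rw [hlog8x]; positivity
      exact mul_le_mul_of_nonneg_left hlogJ2 h3
    have h3 : (2 * Real.log (8 * x) / Real.log (2 * J) + 1) * Real.log J =
        2 * Real.log (8 * x) / Real.log (2 * J) * Real.log J + Real.log J := by ring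
    rw [hlog8x] at h2 h3 h1
    linarith
  have hcond : (8 * x : ℝ) ≤ ((2 * J : ℝ)) ^ ((i : ℝ) / 2) := by
    have h1 := Nat.le_ceil (2 * Real.log (8 * x) / Real.log (2 * J))
    rw [← hi, div_le_iff₀ hlog2J0] at h1
    rw [← Real.log_le_log_iff (by positivity) (Real.rpow_pos_of_pos (by positivity) _),
      Real.log_rpow (by positivity)]
    linarith
  have hne : Q.Nonempty := by
    rw [← Finset.card_pos]
    omega
  have hQmem : ∀ q ∈ Q, q.Prime ∧ 2 < q := by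
    intro q hq
    rw [hQ] at hq
    unfold Pool.Agent.H38R2.CG.PP at hq
    rw [Finset.mem_filter, Finset.mem_Ioc] at hq
    exact ⟨hq.2, by omega⟩
  have hmain := Pool.Agent.J4H21.GP.count_le (C := C₁) (y := J) (Q := Q) (i := i) (x := x) (by omega)
    hQmem hQ35
    (fun X hX => hlow Q (by rw [hQ]) hne i hi1 X hX) hcond
  have hsub : E ⊆ ({p ∈ Finset.Icc 1 x | p.Prime ∧
      ((100 : ℝ) * ({q ∈ (Q : Set ℕ) | Spl p q}.ncard : ℝ) < Q.card)} : Finset ℕ) := by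
    intro p hp
    obtain ⟨h1, h2, h3⟩ := hE p hp
    rw [Finset.mem_filter, Finset.mem_Icc]
    exact ⟨⟨h2.one_le, h1⟩, h2, h3⟩
  have hcardE : (E.card : ℝ) ≤ (({p ∈ Finset.Icc 1 x | p.Prime ∧
      ((100 : ℝ) * ({q ∈ (Q : Set ℕ) | Spl p q}.ncard : ℝ) < Q.card)} : Finset ℕ).card : ℝ) := by
    exact_mod_cast Finset.card_le_card hsub
  refine hcardE.trans (le_trans (le_trans (le_of_eq (by congr!)) hmain) ?_)
  -- the size of the bound
  have hb1 : ((Nat.log 2 (4 * x) + 1 : ℕ) : ℝ) ≤ Real.exp (L / A) := by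
    have h1 : ((Nat.log 2 (4 * x) : ℕ) : ℝ) * Real.log 2 ≤ Real.log (4 * x) := by
      have h2 : 2 ^ Nat.log 2 (4 * x) ≤ 4 * x := Nat.pow_log_le_self 2 (by omega)
      have h3 : ((2 : ℝ) ^ Nat.log 2 (4 * x)) ≤ 4 * x := by exact_mod_cast h2
      rw [← Real.log_pow]
      exact Real.log_le_log (by positivity) h3
    have h4 : Real.log (4 * x) ≤ 2 * L := by
      rw [Real.log_mul (by norm_num) (by linarith), ← hL]
      have : Real.log 4 ≤ Real.log 8 := Real.log_le_log (by norm_num) (by norm_num)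
      linarith
    have h5 := Real.log_two_gt_d9
    have h6 : ((Nat.log 2 (4 * x) : ℕ) : ℝ) ≤ 4 * L := by
      have h0 : (0 : ℝ) ≤ ((Nat.log 2 (4 * x) : ℕ) : ℝ) := Nat.cast_nonneg _
      nlinarith
    push_cast
    linarith
  have hb2 : (i.factorial : ℝ) ≤ Real.exp (6 * L / A) := by
    have h1 : (i.factorial : ℝ) ≤ (i : ℝ) ^ i := by exact_mod_cast Nat.factorial_le_pow i
    have h2 : (i : ℝ) ^ i ≤ L ^ i := pow_le_pow_left₀ (Nat.cast_nonneg _) hiL i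
    have h3 : L ^ i = Real.exp (i * Real.log L) := by
      rw [Real.exp_nat_mul, Real.exp_log hL0]
    exact h1.trans (h2.trans (by rw [h3]; exact Real.exp_le_exp.mpr hiA))
  have hb3 : ((3 * J / (Q.card : ℝ)) ^ i : ℝ) ≤ Real.exp (6 * L / A + 4 * κ * L) := by
    have h1 : 3 * (J : ℝ) / (Q.card : ℝ) ≤ L * Real.exp (κ * Real.log J) := by
      rw [div_le_iff₀ hQpos]
      have h2 : (J : ℝ) = (J : ℝ) ^ κ * (J : ℝ) ^ (1 - κ) := by
        rw [← Real.rpow_add hJ0]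
        norm_num
      have h3 : (J : ℝ) ^ κ = Real.exp (κ * Real.log J) := by
        rw [Real.rpow_def_of_pos hJ0, mul_comm]
      have h4 : (J : ℝ) ≤ Real.exp (κ * Real.log J) * (Q.card : ℝ) := by
        conv_lhs => rw [h2, h3]
        exact mul_le_mul_of_nonneg_left hQc (Real.exp_pos _).le
      calc 3 * (J : ℝ) ≤ L * (Real.exp (κ * Real.log J) * (Q.card : ℝ)) :=
            mul_le_mul e3 h4 hJ0.le hL0.le
        _ = _ := by ring
    have h3 : (3 * (J : ℝ) / (Q.card : ℝ)) ^ i ≤ (L * Real.exp (κ * Real.log J)) ^ i :=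
      pow_le_pow_left₀ (by positivity) h1 i
    have h4 : (L * Real.exp (κ * Real.log J)) ^ i = Real.exp (i * Real.log L + i * (κ * Real.log J)) := by
      rw [mul_pow, Real.exp_add, Real.exp_nat_mul, Real.exp_nat_mul, Real.exp_log hL0]
    have h5 : (i : ℝ) * (κ * Real.log J) ≤ 4 * κ * L := by
      have h6 : (i : ℝ) * (κ * Real.log J) = κ * (i * Real.log J) := by ring
      rw [h6]
      have h7 := mul_le_mul_of_nonneg_left hiJ hκ0.le
      linarith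
    refine h3.trans ?_
    rw [h4]
    exact Real.exp_le_exp.mpr (add_le_add hiA h5)
  calc ((Nat.log 2 (4 * x) + 1 : ℕ) : ℝ) * (C₁ * (i.factorial : ℝ) *
        (3 * J / (Q.card : ℝ)) ^ i)
      ≤ Real.exp (L / A) * (C₁ * Real.exp (6 * L / A) * Real.exp (6 * L / A + 4 * κ * L)) := by
        gcongr
    _ = C₁ * (Real.exp (L / A) * (Real.exp (6 * L / A) * Real.exp (6 * L / A + 4 * κ * L))) := by ring

lemma main_le {d η κ A : ℝ} (hd : 0 < d) (hd1 : d ≤ 1) (hη1 : η < 1) (hκη : κ < η) (hκ0 : 0 < κ)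
    (hA1 : 1 ≤ A) (hAd : 14 / A + 4 * κ ≤ d) :
    ∃ C : ℝ, 0 < C ∧ ∃ x₀ : ℕ, ∀ x : ℕ, x₀ ≤ x → ∃ E : Finset ℕ, (E.card : ℝ) ≤ C * (x : ℝ) ^ d ∧
      ∀ p : ℕ, p.Prime → p ≤ x → (x : ℝ) ^ d < p → p ∉ E → ∀ y : ℝ, (Real.log p) ^ A ≤ y → y ≤ p →
        y ^ (1 - η) ≤ (({q : ℕ | Spl p q ∧ (q : ℝ) ≤ y}.ncard : ℕ) : ℝ) := by
  classical
  have hκ1 : κ < 1 := by linarith
  obtain ⟨C₁, hC₁, y₁, hlow⟩ := Pool.Agent.N614.SP.t_LOW
  obtain ⟨y₂, hP2⟩ := dense_univ hκ0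
  have hA0 : 0 < A := by linarith
  have hlogN : Tendsto (fun x : ℕ => Real.log (x : ℝ)) atTop atTop :=
    Real.tendsto_log_atTop.comp tendsto_natCast_atTop_atTop
  -- the threshold
  have hz : ∀ᶠ z : ℝ in atTop, 400 ≤ z ^ (η - κ) ∧ 35 ≤ z ^ (1 - κ) ∧ (y₁ : ℝ) ≤ z ∧ (y₂ : ℝ) ≤ z ∧
      2 ≤ z := by
    filter_upwards [(tendsto_rpow_atTop (show 0 < η - κ by linarith)).eventually_ge_atTop 400,
      (tendsto_rpow_atTop (show 0 < 1 - κ by linarith)).eventually_ge_atTop 35,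
      eventually_ge_atTop (y₁ : ℝ), eventually_ge_atTop (y₂ : ℝ), eventually_ge_atTop 2] with
      z g1 g2 g3 g4 g5
    exact ⟨g1, g2, g3, g4, g5⟩
  obtain ⟨Z, hZ⟩ := eventually_atTop.1 hz
  obtain ⟨x₀, hx₀⟩ := eventually_atTop.mp
    ((hlogN.eventually (par (η := η) (Z := Z) hA1 hd hκη)).and (eventually_ge_atTop 2))
  refine ⟨C₁, hC₁, x₀, fun x hx => ?_⟩
  obtain ⟨⟨e, f1, f2, f3⟩, hx2⟩ := hx₀ x hx
  obtain ⟨L, hL⟩ : ∃ L : ℝ, L = Real.log (x : ℝ) := ⟨_, rfl⟩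
  rw [← hL] at e f1 f2 f3
  have hL3 : 3 ≤ L := e.2.2.1
  have hL0 : 0 < L := by linarith
  have hx1 : (2 : ℝ) ≤ x := by exact_mod_cast hx2
  obtain ⟨Ej, hEj⟩ : ∃ Ej : ℕ → Finset ℕ, Ej = fun j => {p ∈ Finset.Icc 1 x | p.Prime ∧
      ((100 : ℝ) * ({q ∈ ((PP (2 ^ j) : Finset ℕ) : Set ℕ) | Spl p q}.ncard : ℝ) < (PP (2 ^ j)).card)} :=
    ⟨_, rfl⟩
  obtain ⟨Js, hJs⟩ : ∃ Js : Finset ℕ, Js = (Finset.range (Nat.log 2 x + 1)).filter
      (fun j => (d * L) ^ A / 4 ≤ ((2 ^ j : ℕ) : ℝ)) := ⟨_, rfl⟩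
  have hQ : ∀ j ∈ Js, (((2 ^ j : ℕ) : ℝ)) ^ (1 - κ) ≤ ((PP (2 ^ j)).card : ℝ) := by
    intro j hj
    rw [hJs, Finset.mem_filter] at hj
    have h1 : y₂ ≤ 2 ^ j := by exact_mod_cast (hZ _ (f3.trans hj.2)).2.2.2.1
    refine (hP2 _ h1).trans (le_of_eq ?_)
    unfold Pool.Agent.H38R2.CG.PP
    congr 1
    congr 1
    ext q
    simp
  refine ⟨Js.biUnion Ej, ?_, ?_⟩
  · -- the number of the exceptions
    obtain ⟨M, hM⟩ : ∃ M : ℝ, M = C₁ * (Real.exp (L / A) * (Real.exp (6 * L / A) *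
      Real.exp (6 * L / A + 4 * κ * L))) := ⟨_, rfl⟩
    have hM0 : 0 < M := by rw [hM]; positivity
    have h1 : ∀ j ∈ Js, ((Ej j).card : ℝ) ≤ M := by
      intro j hj
      have hQj := hQ j hj
      rw [hJs, Finset.mem_filter, Finset.mem_range] at hj
      obtain ⟨g1, g2, g3, g4, g5⟩ := hZ _ (f3.trans hj.2)
      rw [hM]
      refine one (y₁ := y₁) (J := 2 ^ j) (x := x) (d := d) hA1 hd hκ0 hκ1 hC₁ hL hx2 e f2 hj.2 ?_ ?_
        (hlow (2 ^ j) (by exact_mod_cast g3)) hQj ?_ (Ej j) ?_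
      · exact (Nat.pow_le_pow_right (by norm_num) (by omega)).trans
          (Nat.pow_log_le_self 2 (by omega))
      · exact_mod_cast g5
      · have := g2.trans hQj
        exact_mod_cast this
      · intro p hp
        rw [hEj] at hp
        simp only [Finset.mem_filter, Finset.mem_Icc] at hp
        exact ⟨hp.1.2, hp.2.1, hp.2.2⟩
    have h2 : ((Js.biUnion Ej).card : ℝ) ≤ ∑ j ∈ Js, ((Ej j).card : ℝ) := by
      exact_mod_cast Finset.card_biUnion_le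
    have h3 : ∑ j ∈ Js, ((Ej j).card : ℝ) ≤ (Js.card : ℝ) * M := by
      rw [← nsmul_eq_mul]
      exact Finset.sum_le_card_nsmul _ _ _ h1
    have h4 : (Js.card : ℝ) ≤ Real.exp (L / A) := by
      have h5 : Js.card ≤ Nat.log 2 x + 1 := by
        rw [hJs]
        exact (Finset.card_filter_le _ _).trans (by rw [Finset.card_range])
      have h6 : ((Nat.log 2 x : ℕ) : ℝ) * Real.log 2 ≤ L := by
        have h2 : 2 ^ Nat.log 2 x ≤ x := Nat.pow_log_le_self 2 (by omega)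
        have h3 : ((2 : ℝ) ^ Nat.log 2 x) ≤ x := by exact_mod_cast h2
        rw [← Real.log_pow, hL]
        exact Real.log_le_log (by positivity) h3
      have h7 := Real.log_two_gt_d9
      have h8 : ((Nat.log 2 x : ℕ) : ℝ) ≤ 4 * L := by
        have h0 : (0 : ℝ) ≤ ((Nat.log 2 x : ℕ) : ℝ) := Nat.cast_nonneg _
        nlinarith
      have h9 : (Js.card : ℝ) ≤ ((Nat.log 2 x : ℕ) : ℝ) + 1 := by exact_mod_cast h5
      have h10 := e.2.2.2.2.2.2.2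
      linarith
    have hxe : (x : ℝ) ^ d = Real.exp (d * L) := by
      rw [Real.rpow_def_of_pos (by linarith), ← hL, mul_comm]
    have hexp : Real.exp (L / A) * (Real.exp (L / A) * (Real.exp (6 * L / A) *
        Real.exp (6 * L / A + 4 * κ * L))) ≤ Real.exp (d * L) := by
      rw [← Real.exp_add, ← Real.exp_add, ← Real.exp_add, Real.exp_le_exp]
      have h1 : (14 / A + 4 * κ) * L ≤ d * L := mul_le_mul_of_nonneg_right hAd hL0.le
      have h2 : L / A + (L / A + (6 * L / A + (6 * L / A + 4 * κ * L))) = (14 / A + 4 * κ) * L := by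
        ring
      linarith
    calc ((Js.biUnion Ej).card : ℝ) ≤ (Js.card : ℝ) * M := h2.trans h3
      _ ≤ Real.exp (L / A) * M := mul_le_mul_of_nonneg_right h4 hM0.le
      _ = C₁ * (Real.exp (L / A) * (Real.exp (L / A) * (Real.exp (6 * L / A) *
          Real.exp (6 * L / A + 4 * κ * L)))) := by rw [hM]; ring
      _ ≤ C₁ * Real.exp (d * L) := mul_le_mul_of_nonneg_left hexp hC₁.le
      _ = C₁ * (x : ℝ) ^ d := by rw [hxe]
  · intro p hp hpx hpd hpE y hy1 hy2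
    have hp0 : (0 : ℝ) < p := by exact_mod_cast hp.pos
    have hxd0 : 0 < (x : ℝ) ^ d := Real.rpow_pos_of_pos (by linarith) _
    have hlogp : d * L ≤ Real.log p := by
      rw [hL, ← Real.log_rpow (by linarith)]
      exact Real.log_le_log hxd0 hpd.le
    have hy3 : (d * L) ^ A ≤ y :=
      (Real.rpow_le_rpow (by positivity) hlogp hA0.le).trans hy1
    have hy4 : 4 ≤ y := f1.trans hy3
    have hy0 : 0 < y := by linarith
    obtain ⟨n, hn⟩ : ∃ n : ℕ, n = ⌊y / 2⌋₊ := ⟨_, rfl⟩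
    have hn1 : (n : ℝ) ≤ y / 2 := by rw [hn]; exact Nat.floor_le (by linarith)
    have hn2 : y / 2 < (n : ℝ) + 1 := by rw [hn]; exact Nat.lt_floor_add_one _
    have hn0 : n ≠ 0 := by
      rw [hn]
      have : 1 ≤ ⌊y / 2⌋₊ := Nat.le_floor (by push_cast; linarith)
      omega
    obtain ⟨j, hj⟩ : ∃ j : ℕ, j = Nat.log 2 n := ⟨_, rfl⟩
    have hj1 : 2 ^ j ≤ n := by rw [hj]; exact Nat.pow_log_le_self 2 hn0
    have hj2 : n < 2 ^ (j + 1) := by rw [hj]; exact Nat.lt_pow_succ_log_self (by norm_num) n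
    have hj1' : (((2 ^ j : ℕ) : ℝ)) ≤ n := by exact_mod_cast hj1
    have hj2' : (n : ℝ) + 1 ≤ 2 * ((2 ^ j : ℕ) : ℝ) := by
      have h : n + 1 ≤ 2 * 2 ^ j := by rw [pow_succ] at hj2; omega
      exact_mod_cast h
    have hJ4 : y / 4 ≤ ((2 ^ j : ℕ) : ℝ) := by linarith
    have hnx : n ≤ x := by
      have h1 : (n : ℝ) ≤ x := by
        have : (p : ℝ) ≤ x := by exact_mod_cast hpx
        linarith
      exact_mod_cast h1
    have hjJ : j ∈ Js := by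
      rw [hJs, Finset.mem_filter, Finset.mem_range]
      refine ⟨?_, by linarith⟩
      have := Nat.log_mono_right (b := 2) hnx
      omega
    have hnot : p ∉ Ej j := fun h => hpE (Finset.mem_biUnion.2 ⟨j, hjJ, h⟩)
    rw [hEj] at hnot
    simp only [Finset.mem_filter, Finset.mem_Icc, not_and, not_lt] at hnot
    have h100 := hnot ⟨hp.one_le, hpx⟩ hp
    have hfin : {q : ℕ | Spl p q ∧ (q : ℝ) ≤ y}.Finite := by
      apply (Finset.finite_toSet (Finset.range (⌊y⌋₊ + 1))).subset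
      intro q hq
      simp only [Finset.coe_range, Set.mem_Iio]
      have := Nat.le_floor hq.2
      omega
    have hsub : {q ∈ ((PP (2 ^ j) : Finset ℕ) : Set ℕ) | Spl p q} ⊆ {q : ℕ | Spl p q ∧ (q : ℝ) ≤ y} := by
      intro q hq
      refine ⟨hq.2, ?_⟩
      have h1 : q ∈ PP (2 ^ j) := hq.1
      unfold Pool.Agent.H38R2.CG.PP at h1
      rw [Finset.mem_filter, Finset.mem_Ioc] at h1
      have h2 : (q : ℝ) ≤ 2 * ((2 ^ j : ℕ) : ℝ) := by exact_mod_cast h1.1.2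
      linarith
    have hcard : ({q ∈ ((PP (2 ^ j) : Finset ℕ) : Set ℕ) | Spl p q}.ncard : ℝ) ≤
        (({q : ℕ | Spl p q ∧ (q : ℝ) ≤ y}.ncard : ℕ) : ℝ) := by
      exact_mod_cast Set.ncard_le_ncard hsub hfin
    have hQj := hQ j hjJ
    have hgz := hZ y (by linarith [f3.trans (show (d * L) ^ A / 4 ≤ y by linarith)])
    have h5 : (y / 4) ^ (1 - κ) ≤ ((2 ^ j : ℕ) : ℝ) ^ (1 - κ) :=
      Real.rpow_le_rpow (by positivity) hJ4 (by linarith)
    have h6 : 100 * y ^ (1 - η) ≤ (y / 4) ^ (1 - κ) := by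
      have h7 : (4 : ℝ) ^ (1 - κ) ≤ 4 := by
        calc (4 : ℝ) ^ (1 - κ) ≤ (4 : ℝ) ^ (1 : ℝ) :=
              Real.rpow_le_rpow_of_exponent_le (by norm_num) (by linarith)
          _ = 4 := Real.rpow_one 4
      have h8 : y ^ (1 - κ) = y ^ (η - κ) * y ^ (1 - η) := by
        rw [← Real.rpow_add hy0]
        congr 1
        ring
      have h9 : 0 < y ^ (1 - η) := Real.rpow_pos_of_pos hy0 _
      have h10 : (0 : ℝ) < (4 : ℝ) ^ (1 - κ) := Real.rpow_pos_of_pos (by norm_num) _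
      rw [Real.div_rpow hy0.le (by norm_num), le_div_iff₀ h10, h8]
      have h11 := mul_le_mul_of_nonneg_right hgz.1 h9.le
      have h12 : 100 * y ^ (1 - η) * (4 : ℝ) ^ (1 - κ) ≤ 100 * y ^ (1 - η) * 4 :=
        mul_le_mul_of_nonneg_left h7 (by positivity)
      linarith
    linarith

theorem t_LOWY : Pool.Agent.J4H78.HG.S_LOWY := by
  classical
  intro δ η hδ hη0 hη1
  obtain ⟨d, hd, hd1, hdδ⟩ : ∃ d : ℝ, 0 < d ∧ d ≤ 1 ∧ d ≤ δ :=
    ⟨min δ 1, lt_min hδ one_pos, min_le_right _ _, min_le_left _ _⟩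
  obtain ⟨κ, hκ0, hκη, hκd⟩ : ∃ κ : ℝ, 0 < κ ∧ κ < η ∧ κ ≤ d / 8 :=
    ⟨min (η / 2) (d / 8), by positivity, (min_le_left _ _).trans_lt (by linarith), min_le_right _ _⟩
  obtain ⟨A, hA1, hA2⟩ : ∃ A : ℝ, 1 ≤ A ∧ 28 / d ≤ A := ⟨max 1 (28 / d), le_max_left _ _, le_max_right _ _⟩
  have hA0 : 0 < A := by linarith
  have hAd : 14 / A + 4 * κ ≤ d := by
    rw [div_le_iff₀ hd] at hA2
    have h2 : 14 / A ≤ d / 2 := by
      rw [div_le_iff₀ hA0]
      linarith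
    linarith
  obtain ⟨C₁, hC₁, x₀, hx₀⟩ := main_le hd hd1 hη1 hκη hκ0 hA1 hAd
  refine ⟨A, C₁ + 2 + x₀ + 1, hA1, by positivity, fun x hx1 => ?_⟩
  have hx1' : (1 : ℝ) ≤ x := by exact_mod_cast hx1
  have hxδ : (1 : ℝ) ≤ (x : ℝ) ^ δ := Real.one_le_rpow hx1' hδ.le
  have hxdδ : (x : ℝ) ^ d ≤ (x : ℝ) ^ δ := Real.rpow_le_rpow_of_exponent_le hx1' hdδ
  obtain ⟨S, hS⟩ : ∃ S : Set ℕ, S = {p : ℕ | p ≤ x ∧ p.Prime ∧ ∃ y : ℝ, (Real.log p) ^ A ≤ y ∧ y ≤ p ∧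
      (({q : ℕ | Spl p q ∧ (q : ℝ) ≤ y}.ncard : ℕ) : ℝ) < y ^ (1 - η)} := ⟨_, rfl⟩
  rw [← hS]
  rcases lt_or_ge x x₀ with hlt | hge
  · have h1 : S ⊆ ((Finset.range (x₀ + 1) : Finset ℕ) : Set ℕ) := by
      intro p hp
      rw [hS] at hp
      have := hp.1
      simp only [Finset.coe_range, Set.mem_Iio]
      omega
    have h2 := Set.ncard_le_ncard h1 (Finset.finite_toSet _)
    rw [Set.ncard_coe_finset, Finset.card_range] at h2
    have h3 : (S.ncard : ℝ) ≤ x₀ + 1 := by exact_mod_cast h2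
    have h4 : (x₀ : ℝ) + 1 ≤ (C₁ + 2 + x₀ + 1) * 1 := by linarith
    exact h3.trans (h4.trans (mul_le_mul_of_nonneg_left hxδ (by positivity)))
  · obtain ⟨E, hE1, hE2⟩ := hx₀ x hge
    have h1 : S ⊆ ((Finset.range (⌊(x : ℝ) ^ d⌋₊ + 1) ∪ E : Finset ℕ) : Set ℕ) := by
      intro p hp
      rw [hS] at hp
      obtain ⟨hpx, hpp, y, hy1, hy2, hlt⟩ := hp
      rw [Finset.coe_union, Set.mem_union]
      by_cases hsm : p ≤ ⌊(x : ℝ) ^ d⌋₊
      · left
        simp only [Finset.coe_range, Set.mem_Iio]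
        omega
      · right
        push Not at hsm
        have hpd : (x : ℝ) ^ d < p := Nat.lt_of_floor_lt hsm
        by_contra hpE
        have h := hE2 p hpp hpx hpd (fun h => hpE (Finset.mem_coe.2 h)) y hy1 hy2
        linarith
    have h2 := Set.ncard_le_ncard h1 (Finset.finite_toSet _)
    rw [Set.ncard_coe_finset] at h2
    have h3 := h2.trans (Finset.card_union_le _ _)
    rw [Finset.card_range] at h3
    have h4 : (S.ncard : ℝ) ≤ (⌊(x : ℝ) ^ d⌋₊ : ℝ) + 1 + E.card := by exact_mod_cast h3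
    have h5 : (⌊(x : ℝ) ^ d⌋₊ : ℝ) ≤ (x : ℝ) ^ d := Nat.floor_le (by positivity)
    have h6 : C₁ * (x : ℝ) ^ d ≤ C₁ * (x : ℝ) ^ δ := mul_le_mul_of_nonneg_left hxdδ hC₁.le
    have h7 : (0 : ℝ) ≤ (x₀ + 1 : ℝ) * (x : ℝ) ^ δ := by positivity
    nlinarith

end Pool.Agent.J4H74.HG
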