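import Pool.Agent.J4H78.HG.Stm2
import Pool.Agent.J4H74.GP.Hb

/-!
# Project HG2, piece (UN1): a unit of `ℚ(√p)` that is not too large
-/

set_option autoImplicit false

namespace Pool.Agent.J4H74.HG

open NumberField Complex Filter Topology MeasureTheory NumberField.mixedEmbedding
  NumberField.InfinitePlace
open Pool.Agent.J4H78.HG Pool.Agent.J4H78.GP
open scoped NNReal ENNReal

variable {K : Type} [Field K] [NumberField K]

theorem two_places (hK : Module.finrank ℚ K = 2) (w w' : InfinitePlace K) (h : w ≠ w') :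
    (∀ v, v = w ∨ v = w') ∧ mult w = 1 ∧ mult w' = 1 := by
  classical
  have hs := InfinitePlace.sum_mult_eq (K := K)
  rw [hK] at hs
  have h1 : ∀ v : InfinitePlace K, 1 ≤ mult v := fun v => InfinitePlace.mult_pos
  have h2 := Finset.sum_le_sum_of_subset (f := fun v : InfinitePlace K => mult v)
    (Finset.subset_univ {w, w'})
  rw [Finset.sum_pair h, hs] at h2
  have hw := h1 w
  have hw' := h1 w'
  refine ⟨fun v => ?_, by omega, by omega⟩
  by_contra hcon
  push Not at hcon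
  have h3 := Finset.sum_le_sum_of_subset (f := fun v : InfinitePlace K => mult v)
    (Finset.subset_univ {v, w, w'})
  rw [Finset.sum_insert (by simp [hcon.1, hcon.2]), Finset.sum_pair h, hs] at h3
  have hv := h1 v
  omega

theorem mink {p : ℕ} (hp : p.Prime) (hK : QD p K) :
    minkowskiBound K ↑1 < ((NNReal.sqrt (4 * p) * 2 ^ 2 + 1 : ℝ≥0) : ℝ≥0∞) := by
  have h0 : (NNReal.sqrt (4 * p) * 2 ^ 2 : ℝ≥0) < NNReal.sqrt (4 * p) * 2 ^ 2 + 1 :=
    lt_add_of_pos_right _ one_pos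
  refine lt_of_le_of_lt ?_ (ENNReal.coe_lt_coe.mpr h0)
  rw [minkowskiBound, volume_fundamentalDomain_fractionalIdealLatticeBasis, Units.val_one,
    FractionalIdeal.absNorm_one, Rat.cast_one, ENNReal.ofReal_one, one_mul, mixedEmbedding.finrank,
    volume_fundamentalDomain_latticeBasis, hK.deg, ENNReal.coe_mul, ENNReal.coe_pow,
    ENNReal.coe_ofNat, show (NNReal.sqrt (4 * p) : ℝ≥0∞) = (1 : ℝ≥0∞) * NNReal.sqrt (4 * p) by
      rw [one_mul]]
  have hd := Pool.Agent.J4H74.GP.discr_le hp hK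
  gcongr
  · exact pow_le_one₀ (by positivity) (by simp)
  · rw [← NNReal.coe_le_coe, coe_nnnorm, Int.norm_eq_abs]
    push_cast
    push_cast at hd
    exact hd

/-- the elements `x_n` -/
theorem ex_x {p : ℕ} (hp : p.Prime) (hK : QD p K) (w w' : InfinitePlace K) (hw : w ≠ w') (B : ℝ)
    (hB : B = ((NNReal.sqrt (4 * p) * 2 ^ 2 + 1 : ℝ≥0) : ℝ)) (y : ℝ) :
    ∃ x : 𝓞 K, x ≠ 0 ∧ w x < B * Real.exp y ∧ w' x < Real.exp (-y) := by
  classical
  obtain ⟨hall, hm, hm'⟩ := two_places hK.deg w w' hw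
  obtain ⟨a, ha⟩ : ∃ a : ℝ≥0, (a : ℝ) = Real.exp y := ⟨⟨Real.exp y, (Real.exp_pos _).le⟩, rfl⟩
  obtain ⟨b, hb⟩ : ∃ b : ℝ≥0, (b : ℝ) = Real.exp (-y) := ⟨⟨Real.exp (-y), (Real.exp_pos _).le⟩, rfl⟩
  set f : InfinitePlace K → ℝ≥0 := fun v =>
    if v = w then (NNReal.sqrt (4 * p) * 2 ^ 2 + 1) * a else b with hf
  have hfw : f w = (NNReal.sqrt (4 * p) * 2 ^ 2 + 1) * a := by
    simp [hf]
  have hfw' : f w' = b := by
    simp [hf, hw.symm]
  have huniv : (Finset.univ : Finset (InfinitePlace K)) = {w, w'} := by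
    ext v
    simp only [Finset.mem_univ, Finset.mem_insert, Finset.mem_singleton, true_iff]
    exact hall v
  have hprod : ∏ v, (f v) ^ mult v = NNReal.sqrt (4 * p) * 2 ^ 2 + 1 := by
    rw [huniv, Finset.prod_pair hw, hm, hm', pow_one, pow_one, hfw, hfw', mul_assoc]
    have : a * b = 1 := by
      apply NNReal.coe_injective
      rw [NNReal.coe_mul, ha, hb, ← Real.exp_add, add_neg_cancel, Real.exp_zero, NNReal.coe_one]
    rw [this, mul_one]
  have hvol : minkowskiBound K ↑1 < volume (convexBodyLT K f) := by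
    rw [convexBodyLT_volume]
    have h1 : (∏ v, ((f v : ℝ≥0) : ℝ≥0∞) ^ mult v) =
        ((NNReal.sqrt (4 * p) * 2 ^ 2 + 1 : ℝ≥0) : ℝ≥0∞) := by
      rw [← hprod]
      push_cast
      rfl
    have h2 : ((convexBodyLTFactor K : ℝ≥0) : ℝ≥0∞) *
        ((NNReal.sqrt (4 * p) * 2 ^ 2 + 1 : ℝ≥0) : ℝ≥0∞) ≥
        ((NNReal.sqrt (4 * p) * 2 ^ 2 + 1 : ℝ≥0) : ℝ≥0∞) := by
      calc ((NNReal.sqrt (4 * p) * 2 ^ 2 + 1 : ℝ≥0) : ℝ≥0∞) =
          1 * ((NNReal.sqrt (4 * p) * 2 ^ 2 + 1 : ℝ≥0) : ℝ≥0∞) := (one_mul _).symm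
        _ ≤ _ := by
          gcongr
          exact_mod_cast one_le_convexBodyLTFactor K
    refine (mink hp hK).trans_le ?_
    refine h2.trans (le_of_eq ?_)
    congr 1
    rw [← h1]
    push_cast
    rfl
  obtain ⟨x, hx0, hx⟩ := exists_ne_zero_mem_ringOfIntegers_lt K hvol
  refine ⟨x, hx0, ?_, ?_⟩
  · have := hx w
    rw [hfw, NNReal.coe_mul, ha, ← hB] at this
    exact this
  · have := hx w'
    rw [hfw', hb] at this
    exact this

theorem t_UN1 : S_UN1 := by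
  obtain ⟨C0, hC0⟩ : ∃ C0 : ℝ, C0 = ‖riemannZeta 2‖ ^ 2 := ⟨_, rfl⟩
  have hC00 : 0 ≤ C0 := by rw [hC0]; positivity
  refine ⟨1620 * C0 + 18, by positivity, fun p K _ _ hp hK w w' hw => ?_⟩
  obtain ⟨hall, hm, hm'⟩ := two_places hK.deg w w' hw
  obtain ⟨B, hB⟩ : ∃ B : ℝ, B = ((NNReal.sqrt (4 * p) * 2 ^ 2 + 1 : ℝ≥0) : ℝ) := ⟨_, rfl⟩
  have hp1 : (1 : ℝ) ≤ p := by exact_mod_cast hp.one_lt.le
  have hBs : B = 8 * Real.sqrt p + 1 := by
    rw [hB]
    push_cast
    rw [Real.sqrt_mul (by norm_num), show (4 : ℝ) = 2 ^ 2 by norm_num, Real.sqrt_sq (by norm_num)]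
    ring
  have hsq : Real.sqrt p ^ 2 = p := Real.sq_sqrt (by linarith)
  have hs1 : 1 ≤ Real.sqrt p := Real.one_le_sqrt.2 hp1
  have hB1 : 1 ≤ B := by rw [hBs]; linarith
  have hB0 : 0 < B := by linarith
  have hB2 : B ^ 2 ≤ 81 * p := by
    rw [hBs]
    nlinarith
  have hB3 : B ≤ 9 * p := by
    rw [hBs]
    nlinarith
  have hlB0 : 0 ≤ Real.log B := Real.log_nonneg hB1
  have hlB : Real.log B ≤ 9 * p := ((Real.log_le_sub_one_of_pos hB0).trans (by linarith)).trans hB3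
  set s : ℝ := Real.log B + 1 with hs
  choose x hx0 hxw hxw' using fun n : ℕ => ex_x hp hK w w' hw B hB (s * n)
  have hnorm : ∀ n, (w (x n : K)) * (w' (x n : K)) = |(Algebra.norm ℚ (x n : K) : ℝ)| := by
    classical
    intro n
    have h1 := prod_eq_abs_norm (x n : K)
    have huniv : (Finset.univ : Finset (InfinitePlace K)) = {w, w'} := by
      ext v
      simp only [Finset.mem_univ, Finset.mem_insert, Finset.mem_singleton, true_iff]
      exact hall v
    rw [huniv, Finset.prod_pair hw, hm, hm', pow_one, pow_one] at h1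
    rw [h1]
    push_cast
    rfl
  have hxK : ∀ n, (x n : K) ≠ 0 := fun n => RingOfIntegers.coe_ne_zero_iff.2 (hx0 n)
  have habs : ∀ n, (Ideal.absNorm (Ideal.span {x n}) : ℝ) = (w (x n : K)) * (w' (x n : K)) := by
    intro n
    rw [hnorm, Ideal.absNorm_span_singleton]
    have h1 : (Algebra.norm ℚ (x n : K)) = ((Algebra.norm ℤ (x n) : ℤ) : ℚ) := by
      rw [← Algebra.coe_norm_int]
    rw [h1, Nat.cast_natAbs]
    push_cast
    rfl
  have hone : ∀ n, 1 ≤ (w (x n : K)) * (w' (x n : K)) := by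
    intro n
    rw [← habs]
    have h1 : Ideal.absNorm (Ideal.span {x n}) ≠ 0 := by
      rw [Ne, Ideal.absNorm_eq_zero_iff, Ideal.span_singleton_eq_bot]
      exact hx0 n
    exact_mod_cast Nat.one_le_iff_ne_zero.2 h1
  have hwp : ∀ n, 0 < w (x n : K) := fun n => InfinitePlace.pos_iff.2 (hxK n)
  have hwp' : ∀ n, 0 < w' (x n : K) := fun n => InfinitePlace.pos_iff.2 (hxK n)
  have hl1 : ∀ n : ℕ, Real.log (w (x n : K)) ≤ Real.log B + s * n := by
    intro n
    rw [← Real.log_exp (s * n), ← Real.log_mul hB0.ne' (Real.exp_pos _).ne']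
    exact Real.log_le_log (hwp n) (hxw n).le
  have hl2 : ∀ n : ℕ, Real.log (w' (x n : K)) ≤ -(s * n) := by
    intro n
    rw [← Real.log_exp (-(s * n))]
    exact Real.log_le_log (hwp' n) (hxw' n).le
  have hl3 : ∀ n : ℕ, 0 ≤ Real.log (w (x n : K)) + Real.log (w' (x n : K)) := by
    intro n
    rw [← Real.log_mul (hwp n).ne' (hwp' n).ne']
    exact Real.log_nonneg (hone n)
  have hla1 : ∀ n : ℕ, 2 * (s * n) ≤ la w w' (x n : K) := by
    intro n
    have := hl2 n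
    have := hl3 n
    unfold la
    linarith
  have hla2 : ∀ n : ℕ, la w w' (x n : K) ≤ 2 * (s * n) + 2 * Real.log B := by
    intro n
    have := hl1 n
    have := hl3 n
    unfold la
    linarith
  have hnB : ∀ n, (Ideal.absNorm (Ideal.span {x n}) : ℝ) ≤ B := by
    intro n
    rw [habs]
    calc (w (x n : K)) * (w' (x n : K)) ≤ (B * Real.exp (s * n)) * Real.exp (-(s * n)) :=
          mul_le_mul (hxw n).le (hxw' n).le (hwp' n).le (by positivity)
      _ = B := by rw [mul_assoc, ← Real.exp_add, add_neg_cancel, Real.exp_zero, mul_one]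
  -- pigeonhole
  set N : ℕ := ⌊C0 * B ^ 2⌋₊ with hN
  have hpig : ∃ i j : Fin (N + 1), i < j ∧ Ideal.span {x i} = Ideal.span {x j} := by
    by_contra hcon
    push Not at hcon
    have hne : ∀ n, Ideal.span {x n} ≠ ⊥ := fun n => by
      rw [Ne, Ideal.span_singleton_eq_bot]
      exact hx0 n
    let J : Fin (N + 1) → {𝔞 : Ideal (𝓞 K) // 𝔞 ≠ ⊥} := fun i => ⟨Ideal.span {x i}, hne i⟩
    have hJ : Function.Injective J := by
      intro i j hij
      have h1 : Ideal.span {x i} = Ideal.span {x j} := congrArg Subtype.val hij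
      rcases lt_trichotomy i j with h | h | h
      · exact absurd h1 (hcon i j h)
      · exact h
      · exact absurd h1.symm (hcon j i h)
    obtain ⟨hsum, hle⟩ := Pool.Agent.J4H74.GP.zb2 hK.deg
    have h1 : ∑' i : Fin (N + 1), (Ideal.absNorm (J i).1 : ℝ) ^ (-2 : ℝ) ≤ C0 := by
      rw [hC0]
      refine le_trans ?_ hle
      exact tsum_comp_le_tsum_of_inj hsum (fun _ => by positivity) hJ
    rw [tsum_fintype] at h1
    have h2 : ∀ i : Fin (N + 1), 1 / B ^ 2 ≤ (Ideal.absNorm (J i).1 : ℝ) ^ (-2 : ℝ) := by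
      intro i
      have h3 : (0 : ℝ) < (Ideal.absNorm (Ideal.span {x i}) : ℝ) := by
        rw [habs]
        linarith [hone i]
      show 1 / B ^ 2 ≤ (Ideal.absNorm (Ideal.span {x i}) : ℝ) ^ (-2 : ℝ)
      rw [Real.rpow_neg h3.le, one_div]
      refine inv_anti₀ (by positivity) ?_
      rw [show (2 : ℝ) = ((2 : ℕ) : ℝ) by norm_num, Real.rpow_natCast]
      exact pow_le_pow_left₀ h3.le (hnB i) 2
    have h5 : ((N + 1 : ℕ) : ℝ) * (1 / B ^ 2) ≤ C0 := by
      refine le_trans ?_ h1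
      calc ((N + 1 : ℕ) : ℝ) * (1 / B ^ 2) = ∑ i : Fin (N + 1), 1 / B ^ 2 := by
            rw [Finset.sum_const, Finset.card_univ, nsmul_eq_mul, Fintype.card_fin]
        _ ≤ _ := Finset.sum_le_sum fun c _ => h2 c
    rw [mul_one_div, div_le_iff₀ (by positivity)] at h5
    have h6 := Nat.lt_floor_add_one (C0 * B ^ 2)
    rw [← hN] at h6
    push_cast at h5
    linarith
  obtain ⟨i, j, hij, hsp⟩ := hpig
  rw [Ideal.span_singleton_eq_span_singleton] at hsp
  obtain ⟨u, hu⟩ := hsp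
  have hij' : (i : ℕ) + 1 ≤ (j : ℕ) := hij
  have hijR : ((i : ℕ) : ℝ) + 1 ≤ ((j : ℕ) : ℝ) := by exact_mod_cast hij'
  have hjN : ((j : ℕ) : ℝ) ≤ N := by
    have := j.2
    exact_mod_cast (by omega : (j : ℕ) ≤ N)
  have hi0 : (0 : ℝ) ≤ ((i : ℕ) : ℝ) := Nat.cast_nonneg _
  have hlau : la w w' ((u : 𝓞 K) : K) = la w w' (x j : K) - la w w' (x i : K) := by
    have h1 : (x j : K) = (x i : K) * ((u : 𝓞 K) : K) := by
      rw [← hu]
      push_cast
      rfl
    have hu0 : ((u : 𝓞 K) : K) ≠ 0 := RingOfIntegers.coe_ne_zero_iff.2 u.ne_zero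
    unfold la
    rw [h1, map_mul, map_mul, Real.log_mul (hwp i).ne' (InfinitePlace.pos_iff.2 hu0).ne',
      Real.log_mul (hwp' i).ne' (InfinitePlace.pos_iff.2 hu0).ne']
    ring
  have hs0 : 0 < s := by rw [hs]; linarith
  refine ⟨u, ?_, ?_⟩
  · rw [hlau]
    have h1 := hla1 j
    have h2 := hla2 i
    have h3 : s * (((i : ℕ) : ℝ) + 1) ≤ s * ((j : ℕ) : ℝ) := mul_le_mul_of_nonneg_left hijR hs0.le
    have h4 : s * (((i : ℕ) : ℝ) + 1) = s * ((i : ℕ) : ℝ) + Real.log B + 1 := by rw [hs]; ring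
    linarith
  · rw [hlau]
    have h1 := hla2 j
    have h2 := hla1 i
    have h3 : 0 ≤ s * ((i : ℕ) : ℝ) := by positivity
    have h4 : ((j : ℕ) : ℝ) ≤ C0 * (81 * p) := by
      refine hjN.trans ((Nat.floor_le (by positivity)).trans ?_)
      exact mul_le_mul_of_nonneg_left hB2 hC00
    have h5 : s ≤ 10 * p := by rw [hs]; linarith
    have h6 : s * ((j : ℕ) : ℝ) ≤ (10 * p) * (C0 * (81 * p)) :=
      mul_le_mul h5 h4 (Nat.cast_nonneg _) (by positivity)
    have h7 : (p : ℝ) ≤ (p : ℝ) ^ 4 := by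
      calc (p : ℝ) = (p : ℝ) ^ 1 := (pow_one _).symm
        _ ≤ _ := pow_le_pow_right₀ hp1 (by norm_num)
    have h8 : (p : ℝ) ^ 2 ≤ (p : ℝ) ^ 4 := pow_le_pow_right₀ hp1 (by norm_num)
    have h9 : C0 * (p : ℝ) ^ 2 ≤ C0 * (p : ℝ) ^ 4 := mul_le_mul_of_nonneg_left h8 hC00
    nlinarith

end Pool.Agent.J4H74.HG
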